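import Mathlib

/-!
# MP_6c2242_co, Q1: a strictly additive Steiner 2-design that is not regular

Start with the lines of `AG(3,4)`, whose points are the elements of `F_2^6`, and replace the lines
inside one affine plane by the lines of another affine structure on that plane.  All blocks are
still cosets of 2-dimensional `F_2`-subspaces, hence zero-sum, but the new `2-(64,4,1)` design has
an automorphism group that is not transitive on the points.
-/

namespace Pool.Agent.Results.MP_6c2242_co.AdditiveNotRegular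

open Finset

/-- `𝓑` is the block set of a `2-(|V|, k, 1)` design on `V`. -/
def IsSteiner {V : Type} [Fintype V] [DecidableEq V] (k : ℕ) (𝓑 : Finset (Finset V)) : Prop :=
  2 ≤ k ∧ k ≤ Fintype.card V ∧ (∀ B ∈ 𝓑, B.card = k) ∧
    ∀ x y : V, x ≠ y → ∃! B, B ∈ 𝓑 ∧ x ∈ B ∧ y ∈ B

/-- The design is strictly `G`-additive. -/
def IsStrictlyAdditive {V : Type} (G : Type) [AddCommGroup G] (𝓑 : Finset (Finset V)) : Prop :=
  ∃ f : V ≃ G, ∀ B ∈ 𝓑, ∑ b ∈ B, f b = 0

/-- The design is `G`-regular: some bijection `f` from the points to `G` makes the block set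
invariant under translations. -/
def IsRegular {V : Type} (G : Type) [AddCommGroup G] (𝓑 : Finset (Finset V)) : Prop :=
  ∃ f : V ≃ G, ∀ B ∈ 𝓑, ∀ g : G, ∃ B' ∈ 𝓑, f '' (B' : Set V) = (fun x => x + g) '' (f '' (B : Set V))

/-! ### An invariant of points -/

/-- There are two blocks through `p` such that no line joining them meets another one (apart from
the obvious intersections). -/
def R {V : Type} [DecidableEq V] (𝓑 : Finset (Finset V)) (p : V) : Prop :=
  ∃ B1 ∈ 𝓑, ∃ B2 ∈ 𝓑, p ∈ B1 ∧ p ∈ B2 ∧ B1 ≠ B2 ∧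
    ∀ a ∈ B1, ∀ b ∈ B1, ∀ c ∈ B2, ∀ d ∈ B2, a ≠ p → b ≠ p → a ≠ b → c ≠ p → d ≠ p → c ≠ d →
      ∀ B3 ∈ 𝓑, ∀ B4 ∈ 𝓑, a ∈ B3 → c ∈ B3 → b ∈ B4 → d ∈ B4 → Disjoint B3 B4

lemma R_map {V : Type} [DecidableEq V] {𝓑 : Finset (Finset V)} (σ : Equiv.Perm V)
    (h : ∀ B ∈ 𝓑, B.map σ.toEmbedding ∈ 𝓑) (h' : ∀ B ∈ 𝓑, B.map σ.symm.toEmbedding ∈ 𝓑) {p : V}
    (hp : R 𝓑 p) : R 𝓑 (σ p) := by
  obtain ⟨B1, hB1, B2, hB2, h1, h2, hne, hall⟩ := hp
  refine ⟨_, h B1 hB1, _, h B2 hB2, Finset.mem_map_of_mem _ h1, Finset.mem_map_of_mem _ h2, ?_, ?_⟩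
  · intro heq
    exact hne (Finset.map_injective _ heq)
  · intro a ha b hb c hc d hd nap nbp nab ncp ndp ncd B3 hB3 B4 hB4 m1 m2 m3 m4
    have key : ∀ {x : V} {B : Finset V}, x ∈ B.map σ.toEmbedding → σ.symm x ∈ B := by
      intro x B hx
      obtain ⟨y, hy, rfl⟩ := Finset.mem_map.1 hx
      simpa using hy
    have key2 : ∀ {x : V} {B : Finset V}, x ∈ B → σ.symm x ∈ B.map σ.symm.toEmbedding := by
      intro x B hx
      exact Finset.mem_map_of_mem _ hx
    have hp : ∀ {x : V}, x ≠ σ p → σ.symm x ≠ p := by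
      intro x hx hxp
      exact hx (by rw [← hxp, Equiv.apply_symm_apply])
    have hd' := hall _ (key ha) _ (key hb) _ (key hc) _ (key hd) (hp nap) (hp nbp)
      (fun h => nab (σ.symm.injective h)) (hp ncp) (hp ndp) (fun h => ncd (σ.symm.injective h))
      _ (h' B3 hB3) _ (h' B4 hB4) (key2 m1) (key2 m2) (key2 m3) (key2 m4)
    rwa [Finset.disjoint_map] at hd'

/-- In a regular design the invariant is the same at all points. -/
lemma R_of_regular {V G : Type} [DecidableEq V] [AddCommGroup G] {𝓑 : Finset (Finset V)}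
    (hreg : IsRegular G 𝓑) {p q : V} (hp : R 𝓑 p) : R 𝓑 q := by
  obtain ⟨f, hf⟩ := hreg
  have hmap : ∀ g : G, ∀ B ∈ 𝓑,
      B.map ((f.trans (Equiv.addRight g)).trans f.symm).toEmbedding ∈ 𝓑 := by
    intro g B hB
    obtain ⟨B', hB', he⟩ := hf B hB g
    have : B.map ((f.trans (Equiv.addRight g)).trans f.symm).toEmbedding = B' := by
      ext x
      rw [Finset.mem_map]
      have hx : x ∈ B' ↔ f x ∈ f '' (B' : Set V) := by
        rw [Set.mem_image]
        constructor
        · intro h; exact ⟨x, h, rfl⟩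
        · rintro ⟨y, hy, hyx⟩
          rw [← f.injective hyx]; exact hy
      rw [hx, he]
      constructor
      · rintro ⟨y, hy, rfl⟩
        refine ⟨f y, ⟨y, hy, rfl⟩, ?_⟩
        simp
      · rintro ⟨_, ⟨y, hy, rfl⟩, hyx⟩
        refine ⟨y, hy, ?_⟩
        simp only [Equiv.coe_toEmbedding, Equiv.trans_apply, Equiv.coe_addRight]
        rw [Equiv.symm_apply_eq]
        exact hyx
    rw [this]; exact hB'
  let g : G := f q - f p
  have h1 := R_map ((f.trans (Equiv.addRight g)).trans f.symm) (hmap g) ?_ hp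
  · have e : ((f.trans (Equiv.addRight g)).trans f.symm) p = q := by
      simp [g]
    rwa [e] at h1
  · intro B hB
    have h2 := hmap (-g) B hB
    have e : ((f.trans (Equiv.addRight (-g))).trans f.symm)
        = ((f.trans (Equiv.addRight g)).trans f.symm).symm := by
      ext x
      simp
    rwa [e] at h2

/-! ### The design -/

/-- multiplication by a primitive element of `F_4` on `F_4^3 = F_2^6` (bits of a number) -/
def om (x : ℕ) : ℕ := Nat.lor (Nat.shiftRight (Nat.land x 42) 1)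
  (Nat.xor (Nat.land x 42) (Nat.shiftLeft (Nat.land x 21) 1))

/-- exchange of two coordinates -/
def sw (x : ℕ) : ℕ := Nat.lor (Nat.land x 57)
  (Nat.lor (Nat.shiftLeft (Nat.land x 2) 1) (Nat.shiftRight (Nat.land x 4) 1))

/-- another multiplication on the plane -/
def om2 (x : ℕ) : ℕ := sw (om (sw x))

/-- third point of the block through `x` and `y` -/
def third (x y : ℕ) : ℕ :=
  if x < 16 ∧ y < 16 then Nat.xor x (om2 (Nat.xor x y)) else Nat.xor x (om (Nat.xor x y))

/-- fourth point of the block through `x` and `y` -/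
def fourth (x y : ℕ) : ℕ := Nat.xor (Nat.xor x y) (third x y)

/-- the block through `x` and `y` as a bit mask -/
def mask (x y : ℕ) : ℕ :=
  Nat.lor (Nat.lor (2 ^ x) (2 ^ y)) (Nat.lor (2 ^ third x y) (2 ^ fourth x y))

def pts (x y : ℕ) : List ℕ := [x, y, third x y, fourth x y]

def check1 (x y : ℕ) : Bool :=
  Nat.beq x y || ((pts x y).all fun z => Nat.blt z 64 && ((pts x y).all fun w =>
    Nat.beq z w || Nat.beq (mask z w) (mask x y)))

def check2 (x y : ℕ) : Bool := Nat.beq x y || decide (pts x y).Nodup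

set_option maxRecDepth 1000000 in
lemma check1_all : ((List.range 64).all fun x => (List.range 64).all fun y => check1 x y) = true := by
  decide +kernel

set_option maxRecDepth 1000000 in
lemma check2_all : ((List.range 64).all fun x => (List.range 64).all fun y => check2 x y) = true := by
  decide +kernel

/-- at the point `0` -/
def check3 : Bool :=
  (pts 0 1).all fun a => (pts 0 1).all fun b => (pts 0 16).all fun c => (pts 0 16).all fun d =>
    Nat.beq a 0 || Nat.beq b 0 || Nat.beq a b || Nat.beq c 0 || Nat.beq d 0 || Nat.beq c d ||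
      Nat.beq (Nat.land (mask a c) (mask b d)) 0

/-- at the point `16` -/
def check4 (x y : ℕ) : Bool :=
  Nat.beq x 16 || Nat.beq y 16 || Nat.beq (mask 16 x) (mask 16 y) ||
    ((pts 16 x).any fun a => (pts 16 y).any fun c => (pts 16 x).any fun b => (pts 16 y).any fun d =>
      !(Nat.beq a 16) && !(Nat.beq b 16) && !(Nat.beq a b) && !(Nat.beq c 16) && !(Nat.beq d 16) &&
      !(Nat.beq c d) && !(Nat.beq (Nat.land (mask a c) (mask b d)) 0))

lemma check3_true : check3 = true := by decide +kernel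

set_option maxRecDepth 1000000 in
lemma check4_all : ((List.range 64).all fun x => (List.range 64).all fun y => check4 x y) = true := by
  decide +kernel

lemma beq_iff (a b : ℕ) : Nat.beq a b = true ↔ a = b := by rw [Nat.beq_eq]

lemma all_range {P : ℕ → ℕ → Bool}
    (h : ((List.range 64).all fun x => (List.range 64).all fun y => P x y) = true)
    (x y : Fin 64) : P x y = true := by
  rw [List.all_eq_true] at h
  have h1 := h x.val (List.mem_range.2 x.2)
  rw [List.all_eq_true] at h1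
  exact h1 y.val (List.mem_range.2 y.2)

lemma testBit_mask (x y z : ℕ) : (mask x y).testBit z = true ↔ z ∈ pts x y := by
  have e : mask x y = (2 ^ x ||| 2 ^ y) ||| (2 ^ third x y ||| 2 ^ fourth x y) := rfl
  rw [e, Nat.testBit_or, Nat.testBit_or, Nat.testBit_or, Nat.testBit_two_pow, Nat.testBit_two_pow,
    Nat.testBit_two_pow, Nat.testBit_two_pow]
  simp only [pts, List.mem_cons, List.not_mem_nil, or_false, Bool.or_eq_true, decide_eq_true_eq]
  constructor
  · rintro ((h | h) | (h | h)) <;> simp [h]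
  · rintro (h | h | h | h) <;> simp [h]

/-- the block through `x` and `y` -/
def blk (x y : ℕ) : Finset (Fin 64) := univ.filter fun z => Nat.testBit (mask x y) z.val = true

lemma mem_blk (x y : ℕ) (z : Fin 64) : z ∈ blk x y ↔ z.val ∈ pts x y := by
  unfold blk
  rw [Finset.mem_filter, testBit_mask]
  simp

lemma mem_left (x : Fin 64) (y : ℕ) : x ∈ blk x.val y := by
  rw [mem_blk]; simp [pts]

lemma mem_right (x : ℕ) (y : Fin 64) : y ∈ blk x y.val := by
  rw [mem_blk]; simp [pts]

/-- the blocks -/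
def 𝓑 : Finset (Finset (Fin 64)) :=
  ((univ : Finset (Fin 64 × Fin 64)).filter fun q => q.1 ≠ q.2).image fun q => blk q.1.val q.2.val

lemma mem_𝓑 {B : Finset (Fin 64)} : B ∈ 𝓑 ↔ ∃ x y : Fin 64, x ≠ y ∧ blk x.val y.val = B := by
  unfold 𝓑
  simp only [Finset.mem_image, Finset.mem_filter, Finset.mem_univ, true_and, Prod.exists]

lemma blk_congr {x y z w : ℕ} (h : mask z w = mask x y) : blk x y = blk z w := by
  unfold blk
  rw [h]

attribute [local irreducible] blk 𝓑 mask

lemma blk_mem {x y : Fin 64} (h : x ≠ y) : blk x.val y.val ∈ 𝓑 := mem_𝓑.2 ⟨x, y, h, rfl⟩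

lemma pts_spec {x y : Fin 64} (hxy : x ≠ y) :
    (∀ z ∈ pts x.val y.val, z < 64) ∧
    ∀ z ∈ pts x.val y.val, ∀ w ∈ pts x.val y.val, z ≠ w → mask z w = mask x.val y.val := by
  have h := all_range (P := check1) check1_all x y
  unfold check1 at h
  rw [Bool.or_eq_true, beq_iff] at h
  rcases h with h | h
  · exact absurd (Fin.ext h) hxy
  · rw [List.all_eq_true] at h
    constructor
    · intro z hz
      have := h z hz
      rw [Bool.and_eq_true, Nat.blt_eq] at this
      exact this.1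
    · intro z hz w hw hzw
      have := h z hz
      rw [Bool.and_eq_true, List.all_eq_true] at this
      have h2 := this.2 w hw
      rw [Bool.or_eq_true, beq_iff, beq_iff] at h2
      exact h2.resolve_left hzw

lemma nodup_pts {x y : Fin 64} (hxy : x ≠ y) : (pts x.val y.val).Nodup := by
  have h := all_range (P := check2) check2_all x y
  unfold check2 at h
  rw [Bool.or_eq_true, beq_iff, decide_eq_true_eq] at h
  exact h.resolve_left fun h => hxy (Fin.ext h)

/-- a block is determined by two of its points -/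
lemma blk_eq {B : Finset (Fin 64)} (hB : B ∈ 𝓑) {z w : Fin 64} (hz : z ∈ B) (hw : w ∈ B)
    (hzw : z ≠ w) : B = blk z.val w.val := by
  obtain ⟨x, y, hxy, rfl⟩ := mem_𝓑.1 hB
  rw [mem_blk] at hz hw
  exact blk_congr ((pts_spec hxy).2 _ hz _ hw fun h => hzw (Fin.ext h))

lemma map_blk {x y : Fin 64} (hxy : x ≠ y) :
    (blk x.val y.val).map Fin.valEmbedding = (pts x.val y.val).toFinset := by
  ext n
  rw [Finset.mem_map, List.mem_toFinset]
  constructor
  · rintro ⟨z, hz, rfl⟩
    exact (mem_blk _ _ _).1 hz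
  · intro hn
    exact ⟨⟨n, (pts_spec hxy).1 n hn⟩, (mem_blk _ _ _).2 hn, rfl⟩

lemma card_blk {x y : Fin 64} (hxy : x ≠ y) : (blk x.val y.val).card = 4 := by
  rw [← Finset.card_map Fin.valEmbedding, map_blk hxy, List.toFinset_card_of_nodup (nodup_pts hxy)]
  rfl

lemma isSteiner : IsSteiner 4 𝓑 := by
  refine ⟨by norm_num, by rw [Fintype.card_fin]; norm_num, ?_, ?_⟩
  · intro B hB
    obtain ⟨x, y, hxy, rfl⟩ := mem_𝓑.1 hB
    exact card_blk hxy
  · intro x y hxy
    refine ⟨blk x.val y.val, ⟨blk_mem hxy, mem_left _ _, mem_right _ _⟩, ?_⟩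
    rintro B ⟨hB, hx, hy⟩
    exact blk_eq hB hx hy hxy

/-! ### Additivity -/

/-- binary digits -/
def gg (n : ℕ) : Fin 6 → ZMod 2 := fun i => if Nat.testBit n i.val then 1 else 0

lemma gg_xor (m n : ℕ) : gg (Nat.xor m n) = gg m + gg n := by
  funext i
  have : Nat.xor m n = m ^^^ n := rfl
  simp only [gg, this, Nat.testBit_xor, Pi.add_apply]
  cases Nat.testBit m i.val <;> cases Nat.testBit n i.val <;> decide

lemma gg_inj : Function.Injective (fun x : Fin 64 => gg x.val) := by
  intro x y h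
  apply Fin.ext
  apply Nat.eq_of_testBit_eq
  intro i
  by_cases hi : i < 6
  · have := congrFun h ⟨i, hi⟩
    simp only [gg] at this
    cases h1 : Nat.testBit x.val i <;> cases h2 : Nat.testBit y.val i <;> simp_all
  · have h1 : Nat.testBit x.val i = false := Nat.testBit_lt_two_pow
      (lt_of_lt_of_le x.2 (by
        calc 64 = 2 ^ 6 := by norm_num
          _ ≤ 2 ^ i := Nat.pow_le_pow_right (by norm_num) (by omega)))
    have h2 : Nat.testBit y.val i = false := Nat.testBit_lt_two_pow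
      (lt_of_lt_of_le y.2 (by
        calc 64 = 2 ^ 6 := by norm_num
          _ ≤ 2 ^ i := Nat.pow_le_pow_right (by norm_num) (by omega)))
    rw [h1, h2]

noncomputable def ff : Fin 64 ≃ (Fin 6 → ZMod 2) :=
  Equiv.ofBijective (fun x => gg x.val) ((Fintype.bijective_iff_injective_and_card _).2
    ⟨gg_inj, by simp⟩)

lemma isAdd : IsStrictlyAdditive (Fin 6 → ZMod 2) 𝓑 := by
  refine ⟨ff, ?_⟩
  intro B hB
  obtain ⟨x, y, hxy, rfl⟩ := mem_𝓑.1 hB
  have h1 : ∑ b ∈ blk x.val y.val, ff b = ∑ n ∈ (blk x.val y.val).map Fin.valEmbedding, gg n := by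
    rw [Finset.sum_map]
    rfl
  rw [h1, map_blk hxy, List.sum_toFinset _ (nodup_pts hxy)]
  simp only [pts, List.map_cons, List.map_nil, List.sum_cons, List.sum_nil, fourth, gg_xor]
  funext i
  simp only [Pi.add_apply, Pi.zero_apply]
  have h2 : (2 : ZMod 2) = 0 := rfl
  linear_combination (gg x.val i + gg y.val i + gg (third x.val y.val) i) * h2

/-! ### The invariant -/

lemma disjoint_of_land {a b c d : ℕ} (h : Nat.land (mask a c) (mask b d) = 0) :
    Disjoint (blk a c) (blk b d) := by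
  rw [Finset.disjoint_left]
  intro z hz hz'
  rw [mem_blk, ← testBit_mask] at hz hz'
  have : (Nat.land (mask a c) (mask b d)).testBit z.val = true := by
    have e : Nat.land (mask a c) (mask b d) = mask a c &&& mask b d := rfl
    rw [e, Nat.testBit_and, hz, hz']
    rfl
  rw [h] at this
  simp at this

lemma land_of_disjoint {a b c d : Fin 64} (hac : a ≠ c)
    (h : Disjoint (blk a.val c.val) (blk b.val d.val)) :
    Nat.land (mask a.val c.val) (mask b.val d.val) = 0 := by
  apply Nat.eq_of_testBit_eq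
  intro z
  have e : Nat.land (mask a.val c.val) (mask b.val d.val) = mask a.val c.val &&& mask b.val d.val :=
    rfl
  rw [e, Nat.testBit_and, Nat.zero_testBit]
  by_contra hcon
  rw [Bool.not_eq_false, Bool.and_eq_true] at hcon
  obtain ⟨h1, h2⟩ := hcon
  rw [testBit_mask] at h1 h2
  have hz := (pts_spec hac).1 z h1
  exact (Finset.disjoint_left.1 h) ((mem_blk _ _ ⟨z, hz⟩).2 h1) ((mem_blk _ _ ⟨z, hz⟩).2 h2)

lemma one_notMem : (1 : Fin 64) ∉ blk ((0 : Fin 64) : ℕ) ((16 : Fin 64) : ℕ) := by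
  intro h1
  rw [mem_blk] at h1
  revert h1
  decide

lemma ne_of_blocks {B1 B2 : Finset (Fin 64)} (hB1 : B1 ∈ 𝓑) (hB2 : B2 ∈ 𝓑) (hne : B1 ≠ B2)
    {p a c : Fin 64} (h1 : p ∈ B1) (h2 : p ∈ B2) (ha : a ∈ B1) (hc : c ∈ B2) (hap : a ≠ p) :
    a ≠ c := by
  rintro rfl
  apply hne
  rw [blk_eq hB1 h1 ha hap.symm, blk_eq hB2 h2 hc hap.symm]

lemma R_zero : R 𝓑 0 := by
  have h01 : (0 : Fin 64) ≠ 1 := by decide
  have h016 : (0 : Fin 64) ≠ 16 := by decide
  have hne : blk ((0 : Fin 64) : ℕ) ((1 : Fin 64) : ℕ) ≠ blk ((0 : Fin 64) : ℕ) ((16 : Fin 64) : ℕ) := by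
    intro h
    apply one_notMem
    rw [← h]; exact mem_right _ _
  refine ⟨_, blk_mem h01, _, blk_mem h016, mem_left _ _, mem_left _ _, hne, ?_⟩
  intro a ha b hb c hc d hd nap nbp nab ncp ndp ncd B3 hB3 B4 hB4 m1 m2 m3 m4
  have hac : a ≠ c := ne_of_blocks (blk_mem h01) (blk_mem h016) hne (mem_left _ _) (mem_left _ _)
    ha hc nap
  have hbd : b ≠ d := ne_of_blocks (blk_mem h01) (blk_mem h016) hne (mem_left _ _) (mem_left _ _)
    hb hd nbp
  have key := check3_true
  unfold check3 at key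
  simp only [List.all_eq_true, Bool.or_eq_true, beq_iff] at key
  rw [mem_blk] at ha hb hc hd
  have k := key _ ha _ hb _ hc _ hd
  have na : ¬ a.val = 0 := fun h => nap (Fin.ext h)
  have nb : ¬ b.val = 0 := fun h => nbp (Fin.ext h)
  have nc : ¬ c.val = 0 := fun h => ncp (Fin.ext h)
  have nd : ¬ d.val = 0 := fun h => ndp (Fin.ext h)
  have nab' : ¬ a.val = b.val := fun h => nab (Fin.ext h)
  have ncd' : ¬ c.val = d.val := fun h => ncd (Fin.ext h)
  have hl : Nat.land (mask a.val c.val) (mask b.val d.val) = 0 := by tauto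
  rw [blk_eq hB3 m1 m2 hac, blk_eq hB4 m3 m4 hbd]
  exact disjoint_of_land hl

lemma exists_other {B : Finset (Fin 64)} (hB : B ∈ 𝓑) {p : Fin 64} (hp : p ∈ B) :
    ∃ x : Fin 64, x ≠ p ∧ B = blk p.val x.val := by
  obtain ⟨x, y, hxy, rfl⟩ := mem_𝓑.1 hB
  by_cases hx : x = p
  · subst hx
    exact ⟨y, hxy.symm, rfl⟩
  · exact ⟨x, hx, blk_eq (blk_mem hxy) hp (mem_left _ _) (Ne.symm hx)⟩

lemma not_R_16 : ¬ R 𝓑 16 := by
  rintro ⟨B1, hB1, B2, hB2, h1, h2, hne, hall⟩
  obtain ⟨x, hx, e1⟩ := exists_other hB1 h1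
  obtain ⟨y, hy, e2⟩ := exists_other hB2 h2
  have key := all_range (P := check4) check4_all x y
  unfold check4 at key
  simp only [List.any_eq_true, Bool.or_eq_true, Bool.and_eq_true, beq_iff,
    Bool.not_eq_true', ← Bool.not_eq_true] at key
  rcases key with ((key | key) | key) | key
  · exact hx (Fin.ext key)
  · exact hy (Fin.ext key)
  · apply hne
    rw [e1, e2]
    exact blk_congr key.symm
  · obtain ⟨a, ha, c, hc, b, hb, d, hd, ⟨⟨⟨⟨⟨na, nb⟩, nab⟩, nc⟩, nd⟩, ncd⟩, hl⟩ := key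
    have la := (pts_spec hx.symm).1 a ha
    have lb := (pts_spec hx.symm).1 b hb
    have lc := (pts_spec hy.symm).1 c hc
    have ld := (pts_spec hy.symm).1 d hd
    have ha' : (⟨a, la⟩ : Fin 64) ∈ B1 := by rw [e1, mem_blk]; exact ha
    have hb' : (⟨b, lb⟩ : Fin 64) ∈ B1 := by rw [e1, mem_blk]; exact hb
    have hc' : (⟨c, lc⟩ : Fin 64) ∈ B2 := by rw [e2, mem_blk]; exact hc
    have hd' : (⟨d, ld⟩ : Fin 64) ∈ B2 := by rw [e2, mem_blk]; exact hd
    have na' : (⟨a, la⟩ : Fin 64) ≠ 16 := fun h => na (congrArg Fin.val h)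
    have nb' : (⟨b, lb⟩ : Fin 64) ≠ 16 := fun h => nb (congrArg Fin.val h)
    have nc' : (⟨c, lc⟩ : Fin 64) ≠ 16 := fun h => nc (congrArg Fin.val h)
    have nd' : (⟨d, ld⟩ : Fin 64) ≠ 16 := fun h => nd (congrArg Fin.val h)
    have nab' : (⟨a, la⟩ : Fin 64) ≠ ⟨b, lb⟩ := fun h => nab (congrArg Fin.val h)
    have ncd' : (⟨c, lc⟩ : Fin 64) ≠ ⟨d, ld⟩ := fun h => ncd (congrArg Fin.val h)
    have hac := ne_of_blocks hB1 hB2 hne h1 h2 ha' hc' na'
    have hbd := ne_of_blocks hB1 hB2 hne h1 h2 hb' hd' nb'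
    have hdis := hall _ ha' _ hb' _ hc' _ hd' na' nb' nab' nc' nd' ncd' _ (blk_mem hac) _
      (blk_mem hbd) (mem_left _ _) (mem_right _ _) (mem_left _ _) (mem_right _ _)
    exact hl (land_of_disjoint hac hdis)

/-- **Positive answer to Q1.** There are a finite abelian group `G` and a Steiner 2-design that is
strictly `G`-additive but not `G`-regular. -/
theorem result : ∃ (G V : Type) (_ : AddCommGroup G) (_ : Finite G) (_ : Fintype V)
    (_ : DecidableEq V) (k : ℕ) (𝓑 : Finset (Finset V)),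
    IsSteiner k 𝓑 ∧ IsStrictlyAdditive G 𝓑 ∧ ¬ IsRegular G 𝓑 := by
  refine ⟨Fin 6 → ZMod 2, Fin 64, inferInstance, inferInstance, inferInstance, inferInstance, 4,
    𝓑, isSteiner, isAdd, ?_⟩
  intro hreg
  exact not_R_16 (R_of_regular hreg R_zero)

end Pool.Agent.Results.MP_6c2242_co.AdditiveNotRegular
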